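import Pool.Agent.Lib.MP_0c4359_pr.Main

open Pool.Agent.Lib.MP_0c4359_pr

namespace Pool.Agent.Results.MP_0c4359_pr.WholeRegion

/-- The set of admissible pairs `(μ, ν)` for which the law is infinitely divisible for every
choice of `b > a > 0` is the whole admissible region. -/
theorem result :
    {p : ℝ × ℝ | p ∈ admissible ∧
      ∀ a b : ℝ, 0 < a → a < b → InfinitelyDivisible (law p.1 p.2 a b)} = admissible := by
  ext p
  refine ⟨fun h => h.1, fun h => ⟨h, fun a b ha hab => ?_⟩⟩
  exact law_infDiv p.1 p.2 a b h.1 h.2 ha hab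

end Pool.Agent.Results.MP_0c4359_pr.WholeRegion
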